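import Pool.Agent.Lib.MP_f44088_al.FB5.Uni

set_option autoImplicit false

/-- Let `W` be a set of group laws such that every group satisfying `W` is locally finite and has abelian Sylow
subgroups, and let `N` be such that (1) every finite nonabelian simple group satisfying `W` has order at most `N`, and
(2) every finite monolithic group satisfying `W` (nontrivial, and any two nontrivial normal subgroups intersect
nontrivially) of order greater than `N` is soluble of derived length at most 3 or has order divisible by at most three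
primes. Then some finite set `B` of laws defines the same class of groups as `W`. -/
theorem Pool.Agent.Results.MP_f44088_al.LargeMonolithic.result
    (W : Set (FreeGroup ℕ))
    (hW : ∀ (G : Type) [Group G],
      (∀ w ∈ W, ∀ f : ℕ → G, FreeGroup.lift f w = 1) →
        ((∀ s : Finset G, Finite (Subgroup.closure (s : Set G))) ∧
          ∀ p : ℕ, p.Prime → ∀ P : Sylow p G, ∀ x ∈ P, ∀ y ∈ P, x * y = y * x))
    (N : ℕ)
    (h1 : ∀ (G : Type) [Group G] [Finite G],
      (∀ w ∈ W, ∀ f : ℕ → G, FreeGroup.lift f w = 1) →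
        IsSimpleGroup G → (¬ ∀ x y : G, x * y = y * x) → Nat.card G ≤ N)
    (h2 : ∀ (G : Type) [Group G] [Finite G],
      (∀ w ∈ W, ∀ f : ℕ → G, FreeGroup.lift f w = 1) →
        Nontrivial G → (∀ M L : Subgroup G, M.Normal → L.Normal → M ⊓ L = ⊥ → M = ⊥ ∨ L = ⊥) →
          N < Nat.card G → derivedSeries G 3 = ⊥ ∨ (Nat.card G).primeFactors.card ≤ 3) :
    ∃ B : Finset (FreeGroup ℕ), ∀ (G : Type) [Group G],
      ((∀ w ∈ W, ∀ f : ℕ → G, FreeGroup.lift f w = 1) ↔
        (∀ w ∈ B, ∀ f : ℕ → G, FreeGroup.lift f w = 1)) := by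
  refine Pool.Agent.Lib.MP_f44088_fd.Uni W hW N h1 ?_
  intro G _ _ hG hM
  rcases Nat.lt_or_ge N (Nat.card G) with h | h
  · rcases h2 G hG hM.1 hM.2 h with h | h
    · exact Or.inl h
    · exact Or.inr (Or.inr h)
  · exact Or.inr (Or.inl h)
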